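import Pool.Agent.K4H75.OS.Spec

/-!
# Double counting of the sets of a family of `k`-sets in the first `t` vertices
-/

set_option autoImplicit false

namespace Pool.Agent.K4H75.OS

open Finset

theorem cnt_active_card {n t : ℕ} (σ : Equiv.Perm (Fin n)) (ht : t ≤ n) :
    (active σ t).card = t := by
  unfold active
  rw [card_map]
  have h : (univ.filter fun i : Fin n => (i : ℕ) < t) =
      (univ : Finset (Fin t)).map (Fin.castLEEmb ht) := by
    ext i
    simp only [mem_filter, mem_univ, true_and, mem_map]
    constructor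
    · intro hi
      exact ⟨⟨i, hi⟩, rfl⟩
    · rintro ⟨j, rfl⟩
      exact j.2
  rw [h, card_map, card_univ, Fintype.card_fin]

theorem cnt_active_mul {n t : ℕ} (τ σ : Equiv.Perm (Fin n)) :
    active (τ * σ) t = (active σ t).map τ.toEmbedding := by
  unfold active
  rw [map_map]
  rfl

theorem cnt_exists_perm {n : ℕ} {e e' : Finset (Fin n)} (h : e.card = e'.card) :
    ∃ τ : Equiv.Perm (Fin n), e.map τ.toEmbedding = e' := by
  have h1 : Fintype.card {x // x ∈ e} = Fintype.card {x // x ∈ e'} := by
    rw [Fintype.card_coe, Fintype.card_coe, h]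
  let f : {x // x ∈ e} ≃ {x // x ∈ e'} := Fintype.equivOfCardEq h1
  refine ⟨f.extendSubtype, ?_⟩
  apply eq_of_subset_of_card_le
  · intro x hx
    rw [mem_map] at hx
    obtain ⟨y, hy, rfl⟩ := hx
    exact f.extendSubtype_mem y hy
  · rw [card_map, h]

theorem cnt_eq {n t : ℕ} {e e' : Finset (Fin n)} (h : e.card = e'.card) :
    (univ.filter fun σ : Equiv.Perm (Fin n) => e' ⊆ active σ t).card =
      (univ.filter fun σ : Equiv.Perm (Fin n) => e ⊆ active σ t).card := by
  obtain ⟨τ, rfl⟩ := cnt_exists_perm h
  refine (card_nbij' (fun σ => τ * σ) (fun σ => τ⁻¹ * σ) ?_ ?_ ?_ ?_).symm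
  · intro σ hσ
    simp only [coe_filter, mem_univ, true_and, Set.mem_ofPred_eq] at hσ ⊢
    rw [cnt_active_mul]
    exact map_subset_map.2 hσ
  · intro σ hσ
    simp only [coe_filter, mem_univ, true_and, Set.mem_ofPred_eq] at hσ ⊢
    have h2 : active σ t = (active (τ⁻¹ * σ) t).map τ.toEmbedding := by
      rw [← cnt_active_mul, mul_inv_cancel_left]
    rw [h2] at hσ
    exact map_subset_map.1 hσ
  · intro σ _
    simp
  · intro σ _
    simp

theorem cnt_key {n k t : ℕ} (ht : t ≤ n) (e : Finset (Fin n)) (he : e.card = k) :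
    (univ.filter fun σ : Equiv.Perm (Fin n) => e ⊆ active σ t).card * n.choose k =
      n.factorial * t.choose k := by
  have h1 : ∀ e' ∈ (univ : Finset (Fin n)).powersetCard k,
      (univ.filter fun σ : Equiv.Perm (Fin n) => e' ⊆ active σ t).card =
        (univ.filter fun σ : Equiv.Perm (Fin n) => e ⊆ active σ t).card := by
    intro e' he'
    rw [mem_powersetCard] at he'
    exact cnt_eq (he.trans he'.2.symm)
  have h2 : ∑ e' ∈ (univ : Finset (Fin n)).powersetCard k,
      (univ.filter fun σ : Equiv.Perm (Fin n) => e' ⊆ active σ t).card =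
        n.factorial * t.choose k := by
    simp_rw [card_filter]
    rw [sum_comm]
    have h3 : ∀ σ ∈ (univ : Finset (Equiv.Perm (Fin n))),
        ∑ e' ∈ (univ : Finset (Fin n)).powersetCard k, (if e' ⊆ active σ t then 1 else 0) =
          t.choose k := by
      intro σ _
      rw [← card_filter]
      have h4 : ((univ : Finset (Fin n)).powersetCard k).filter (fun e' => e' ⊆ active σ t) =
          (active σ t).powersetCard k := by
        ext x
        simp only [mem_filter, mem_powersetCard, subset_univ, true_and]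
        tauto
      rw [h4, card_powersetCard, cnt_active_card σ ht]
    rw [sum_congr rfl h3, sum_const, card_univ, Fintype.card_perm, Fintype.card_fin, smul_eq_mul]
  rw [sum_congr rfl h1, sum_const, card_powersetCard, card_univ, Fintype.card_fin,
    smul_eq_mul] at h2
  rw [mul_comm]
  exact h2

/-- piece CNT -/
theorem cnt : StCnt := by
  intro n k t 𝓔 ht _ hE
  have h1 : ∑ σ : Equiv.Perm (Fin n), (𝓔.filter fun e => e ⊆ active σ t).card =
      ∑ e ∈ 𝓔, (univ.filter fun σ : Equiv.Perm (Fin n) => e ⊆ active σ t).card := by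
    simp_rw [card_filter]
    rw [sum_comm]
  rw [h1, sum_mul, sum_congr rfl fun e he => cnt_key (t := t) ht e (hE e he), sum_const,
    smul_eq_mul, mul_assoc]

end Pool.Agent.K4H75.OS
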