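import Pool.Agent.K4H75.OS.Spec

set_option autoImplicit false

namespace Pool.Agent.K4H75.OS

open Finset

namespace DualAux

variable {n : ℕ} {G : SimpleGraph (Fin n)} {F : Finset (Finset (Fin n))}

lemma mem_edges {e : Finset (Fin n)} :
    e ∈ edges G ↔ e.card = 2 ∧ ∀ a ∈ e, ∀ b ∈ e, a ≠ b → G.Adj a b := by
  classical
  unfold edges
  rw [Finset.mem_filter, Finset.mem_powersetCard]
  constructor
  · rintro ⟨⟨_, h1⟩, h2⟩
    exact ⟨h1, h2⟩
  · rintro ⟨h1, h2⟩
    exact ⟨⟨Finset.subset_univ _, h1⟩, h2⟩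

/-- all faces over an edge of a face of `A` are in `A` -/
lemma over_edge (h : IsSphere G F) {A : Finset (Finset (Fin n))} (hA : A ⊆ F)
    (hodd : ∀ e ∈ edges G, (A.filter fun f => e ⊆ f).card ≠ 1) {e f g : Finset (Fin n)}
    (he : e ∈ edges G) (hf : f ∈ A) (hef : e ⊆ f) (hg : g ∈ F) (heg : e ⊆ g) : g ∈ A := by
  have h1 : A.filter (fun f => e ⊆ f) ⊆ F.filter (fun f => e ⊆ f) :=
    Finset.filter_subset_filter _ hA
  have h2 : 0 < (A.filter fun f => e ⊆ f).card :=
    Finset.card_pos.2 ⟨f, Finset.mem_filter.2 ⟨hf, hef⟩⟩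
  have h3 := hodd e he
  have h4 := h.two e he
  have h5 := Finset.eq_of_subset_of_card_le h1 (by omega)
  have h6 : g ∈ F.filter (fun f => e ⊆ f) := Finset.mem_filter.2 ⟨hg, heg⟩
  rw [← h5] at h6
  exact (Finset.mem_filter.1 h6).1

/-- all faces at a vertex of a face of `A` are in `A` -/
lemma at_vertex (h : IsSphere G F) {A : Finset (Finset (Fin n))} (hA : A ⊆ F)
    (hodd : ∀ e ∈ edges G, (A.filter fun f => e ⊆ f).card ≠ 1) {v : Fin n} {f g : Finset (Fin n)}
    (hf : f ∈ A) (hvf : v ∈ f) (hg : g ∈ F) (hvg : v ∈ g) : g ∈ A := by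
  have h1 := h.link v (A.filter fun f => v ∈ f) (Finset.filter_subset_filter _ hA)
    ⟨f, Finset.mem_filter.2 ⟨hf, hvf⟩⟩ (by
      intro f' hf' g' hg' hvg' hc
      rw [Finset.mem_filter] at hf' ⊢
      refine ⟨?_, hvg'⟩
      obtain ⟨e, he, he2⟩ := Finset.exists_subset_card_eq hc
      have hef : e ⊆ f' := he.trans Finset.inter_subset_left
      have heg : e ⊆ g' := he.trans Finset.inter_subset_right
      refine over_edge h hA hodd (e := e) ?_ hf'.1 hef hg' heg
      rw [mem_edges]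
      exact ⟨he2, fun a ha b hb hab => h.adj f' (hA hf'.1) a (hef ha) b (hef hb) hab⟩)
  have h2 : g ∈ F.filter (fun f => v ∈ f) := Finset.mem_filter.2 ⟨hg, hvg⟩
  rw [← h1] at h2
  exact (Finset.mem_filter.1 h2).1

/-- a neighbour of a vertex of a face of `A` is a vertex of a face of `A` -/
lemma step (h : IsSphere G F) {A : Finset (Finset (Fin n))} (hA : A ⊆ F)
    (hodd : ∀ e ∈ edges G, (A.filter fun f => e ⊆ f).card ≠ 1) {v w : Fin n} (hvw : G.Adj v w)
    (hv : ∃ f ∈ A, v ∈ f) : ∃ f ∈ A, w ∈ f := by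
  obtain ⟨f, hf, hvf⟩ := hv
  have he : ({v, w} : Finset (Fin n)) ∈ edges G := by
    rw [mem_edges]
    refine ⟨Finset.card_pair hvw.ne, ?_⟩
    intro a ha b hb hab
    rw [Finset.mem_insert, Finset.mem_singleton] at ha hb
    rcases ha with rfl | rfl <;> rcases hb with rfl | rfl
    · exact absurd rfl hab
    · exact hvw
    · exact hvw.symm
    · exact absurd rfl hab
  have h2 := h.two _ he
  have h3 : (F.filter fun f => ({v, w} : Finset (Fin n)) ⊆ f).Nonempty := by
    rw [← Finset.card_pos, h2]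
    norm_num
  obtain ⟨g, hg⟩ := h3
  rw [Finset.mem_filter] at hg
  have hvg : v ∈ g := hg.2 (Finset.mem_insert_self _ _)
  have hwg : w ∈ g := hg.2 (Finset.mem_insert_of_mem (Finset.mem_singleton_self _))
  exact ⟨g, at_vertex h hA hodd hf hvf hg.1 hvg, hwg⟩

end DualAux

open DualAux in
/-- a nonempty set of faces which meets no edge in exactly one face consists of all the faces -/
theorem dual : StDual := by
  intro n G F h A hA hne hodd
  obtain ⟨f, hf⟩ := hne
  have hf3 := h.card f (hA hf)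
  have hfne : f.Nonempty := by
    rw [← Finset.card_pos, hf3]; norm_num
  obtain ⟨v, hv⟩ := hfne
  have hall : ∀ w : Fin n, ∃ g ∈ A, w ∈ g := by
    intro w
    obtain ⟨p⟩ := h.connected.preconnected v w
    have key : ∀ {x y : Fin n} (_ : G.Walk x y), (∃ g ∈ A, x ∈ g) → ∃ g ∈ A, y ∈ g := by
      intro x y q
      induction q with
      | nil => exact fun h0 => h0
      | cons hadj _ ih => exact fun h0 => ih (step h hA hodd hadj h0)
    exact key p ⟨f, hf, hv⟩
  refine Finset.Subset.antisymm hA fun g hg => ?_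
  have hg3 := h.card g hg
  have hgne : g.Nonempty := by
    rw [← Finset.card_pos, hg3]; norm_num
  obtain ⟨w, hw⟩ := hgne
  obtain ⟨f', hf', hwf'⟩ := hall w
  exact at_vertex h hA hodd hf' hwf' hg hw

end Pool.Agent.K4H75.OS
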