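import Pool.Agent.K4H75.OS.Spec

set_option autoImplicit false

namespace Pool.Agent.K4H75.OS

open Finset

theorem fac : StFac := by
  classical
  intro n G F h
  -- double counting
  have h1 : ∑ e ∈ edges G, (F.filter fun f => e ⊆ f).card = (edges G).card * 2 :=
    sum_const_nat fun e he => h.two e he
  have h2 : ∑ f ∈ F, ((edges G).filter fun e => e ⊆ f).card = F.card * 3 := by
    refine sum_const_nat fun f hf => ?_
    have e1 : ((edges G).filter fun e => e ⊆ f) = f.powersetCard 2 := by
      ext e
      rw [mem_filter, edges, mem_filter, mem_powersetCard, mem_powersetCard]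
      constructor
      · rintro ⟨⟨⟨_, h3⟩, _⟩, h4⟩
        exact ⟨h4, h3⟩
      · rintro ⟨h4, h3⟩
        exact ⟨⟨⟨subset_univ _, h3⟩, fun a ha b hb hab => h.adj f hf a (h4 ha) b (h4 hb) hab⟩, h4⟩
    rw [e1, card_powersetCard, h.card f hf]
    rfl
  have h3 : ∑ e ∈ edges G, (F.filter fun f => e ⊆ f).card =
      ∑ f ∈ F, ((edges G).filter fun e => e ⊆ f).card := by
    have h5 := sum_card_bipartiteAbove_eq_sum_card_bipartiteBelow (s := edges G) (t := F)
      (fun (e f : Finset (Fin n)) => e ⊆ f)
    exact h5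
  have h4 := h.euler
  omega

end Pool.Agent.K4H75.OS
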