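import Pool.Agent.K4H75.OS.Dual
import Pool.Agent.K4H75.OS.Fac
import Pool.Agent.K4H75.OS.Cnt
import Pool.Agent.K4H88.OSEul
import Pool.Agent.K4H75.OS.Real2

/-!
# The score of the algorithms which stop at a fixed time, on planar triangulations
-/

set_option autoImplicit false

namespace Pool.Agent.K4H75.OS

open Finset

/-- `A` is a stopping algorithm with full information: `A σ ∈ {1, …, n}` is the time at which it stops
if the vertices become active in the order `σ 0, σ 1, …`; it depends only on the vertices which are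
active at this time and on their order. -/
def IsStopping {n : ℕ} (A : Equiv.Perm (Fin n) → ℕ) : Prop :=
  (∀ σ, 1 ≤ A σ ∧ A σ ≤ n) ∧
    ∀ σ τ : Equiv.Perm (Fin n), (∀ i : Fin n, (i : ℕ) < A σ → σ i = τ i) → A τ = A σ

/-- The score: the expected number of components at the stopping time. -/
noncomputable def score {n : ℕ} (G : SimpleGraph (Fin n)) (A : Equiv.Perm (Fin n) → ℕ) : ℝ :=
  (∑ σ : Equiv.Perm (Fin n), (comps G (active σ (A σ)) : ℝ)) / n.factorial

theorem active_card {n : ℕ} (σ : Equiv.Perm (Fin n)) {t : ℕ} (ht : t ≤ n) :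
    (active σ t).card = t := by
  unfold active
  rw [card_map]
  have h1 : (univ.filter fun i : Fin n => (i : ℕ) < t) = (univ : Finset (Fin t)).map
      (Fin.castLEEmb ht) := by
    ext i
    simp only [mem_filter, mem_univ, true_and, mem_map]
    constructor
    · intro h
      exact ⟨⟨i, h⟩, Fin.ext rfl⟩
    · rintro ⟨j, rfl⟩
      exact j.2
  rw [h1, card_map, card_univ, Fintype.card_fin]

theorem choose3 (n : ℕ) : ((n.choose 3 : ℕ) : ℝ) = n * (n - 1) * (n - 2) / 6 := by
  induction n with
  | zero => simp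
  | succ n ih =>
    rw [Nat.choose_succ_succ' n 2, Nat.cast_add, ih, Nat.cast_choose_two]
    push_cast
    ring

theorem one_time {n : ℕ} {G : SimpleGraph (Fin n)} {F : Finset (Finset (Fin n))}
    (h : IsSphere G F) (S : Finset (Fin n)) (hn : 2 ≤ n) (hS : S.card < n) :
    S.card + (F.filter fun f => f ⊆ S).card ≤
      ((edges G).filter fun e => e ⊆ S).card + comps G S := by
  classical
  refine eul n G S _ (fun f hf => ?_) (fun B hB hBn => ?_)
  · rw [mem_filter] at hf
    exact ⟨h.card f hf.1, hf.2, h.adj f hf.1⟩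
  · by_contra hcon
    push Not at hcon
    have h1 := dual n G F h B (hB.trans (filter_subset _ _)) hBn hcon
    have h2 : ∀ v : Fin n, v ∈ S := by
      intro v
      have : Nontrivial (Fin n) := Fin.nontrivial_iff_two_le.2 hn
      obtain ⟨w, hw⟩ := h.connected.preconnected.exists_adj_of_nontrivial v
      have he : ({v, w} : Finset (Fin n)) ∈ edges G := by
        unfold edges
        rw [mem_filter, mem_powersetCard]
        refine ⟨⟨subset_univ _, card_pair hw.ne⟩, ?_⟩
        intro a ha b hb hab
        simp only [mem_insert, mem_singleton] at ha hb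
        rcases ha with rfl | rfl <;> rcases hb with rfl | rfl
        · exact absurd rfl hab
        · exact hw
        · exact hw.symm
        · exact absurd rfl hab
      have h3 := h.two _ he
      obtain ⟨f, hf⟩ := card_pos.1 (by rw [h3]; norm_num : 0 < (F.filter fun f => {v, w} ⊆ f).card)
      rw [mem_filter] at hf
      have h4 : f ∈ B := by rw [h1]; exact hf.1
      have h5 := hB h4
      rw [mem_filter] at h5
      exact h5.2 (hf.2 (mem_insert_self _ _))
    have h3 : S = univ := eq_univ_iff_forall.2 h2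
    rw [h3, card_univ, Fintype.card_fin] at hS
    exact lt_irrefl _ hS

theorem fixed_time {n : ℕ} {G : SimpleGraph (Fin n)} {F : Finset (Finset (Fin n))}
    (h : IsSphere G F) (hn : 3 ≤ n) (t : ℕ) (ht : t < n) :
    (t : ℝ) - (3 * n - 6) * ((t : ℝ) * (t - 1)) / (n * (n - 1)) +
      (2 * n - 4) * ((t : ℝ) * (t - 1) * (t - 2)) / (n * (n - 1) * (n - 2)) ≤
      score G fun _ => t := by
  classical
  obtain ⟨hE, hF⟩ := fac n G F h
  have hE' : ((edges G).card : ℝ) = 3 * n - 6 := by
    have : ((edges G).card : ℝ) + 6 = 3 * n := by exact_mod_cast hE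
    linarith
  have hF' : (F.card : ℝ) = 2 * n - 4 := by
    have : (F.card : ℝ) + 4 = 2 * n := by exact_mod_cast hF
    linarith
  have hn' : (3 : ℝ) ≤ n := by exact_mod_cast hn
  have c1 := cnt n 2 t (edges G) ht.le (by omega) (fun e he => by
    unfold edges at he
    rw [mem_filter, mem_powersetCard] at he
    exact he.1.2)
  have c2 := cnt n 3 t F ht.le hn h.card
  have c1' : (∑ σ : Equiv.Perm (Fin n), (((edges G).filter fun e => e ⊆ active σ t).card : ℝ)) *
      ((n : ℝ) * (n - 1) / 2) = (3 * n - 6) * n.factorial * ((t : ℝ) * (t - 1) / 2) := by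
    rw [← hE', ← Nat.cast_choose_two, ← Nat.cast_choose_two]
    exact_mod_cast c1
  have c2' : (∑ σ : Equiv.Perm (Fin n), ((F.filter fun e => e ⊆ active σ t).card : ℝ)) *
      ((n : ℝ) * (n - 1) * (n - 2) / 6) =
        (2 * n - 4) * n.factorial * ((t : ℝ) * (t - 1) * (t - 2) / 6) := by
    rw [← hF', ← choose3, ← choose3]
    exact_mod_cast c2
  have hsum : ∑ σ : Equiv.Perm (Fin n), ((t : ℝ) + ((F.filter fun e => e ⊆ active σ t).card : ℝ) -
      (((edges G).filter fun e => e ⊆ active σ t).card : ℝ)) ≤
      ∑ σ : Equiv.Perm (Fin n), (comps G (active σ t) : ℝ) := by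
    refine sum_le_sum fun σ _ => ?_
    have h1 := one_time h (active σ t) (by omega) (by rw [active_card σ ht.le]; exact ht)
    rw [active_card σ ht.le] at h1
    have h2 : (t : ℝ) + ((F.filter fun e => e ⊆ active σ t).card : ℝ) ≤
      (((edges G).filter fun e => e ⊆ active σ t).card : ℝ) + (comps G (active σ t) : ℝ) := by
      exact_mod_cast h1
    linarith
  rw [sum_sub_distrib, sum_add_distrib, sum_const, card_univ, Fintype.card_perm, Fintype.card_fin,
    nsmul_eq_mul] at hsum
  have hfac : (0 : ℝ) < n.factorial := by exact_mod_cast n.factorial_pos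
  unfold score
  rw [le_div_iff₀ hfac]
  refine le_trans (le_of_eq ?_) hsum
  have n0 : (n : ℝ) ≠ 0 := by linarith
  have n1 : (n : ℝ) - 1 ≠ 0 := by linarith
  have n2 : (n : ℝ) - 2 ≠ 0 := by linarith
  have d1 : (∑ σ : Equiv.Perm (Fin n), (((edges G).filter fun e => e ⊆ active σ t).card : ℝ)) =
      (3 * n - 6) * ((t : ℝ) * (t - 1)) / (n * (n - 1)) * n.factorial := by
    field_simp
    field_simp at c1'
    linarith
  have d2 : (∑ σ : Equiv.Perm (Fin n), ((F.filter fun e => e ⊆ active σ t).card : ℝ)) =
      (2 * n - 4) * ((t : ℝ) * (t - 1) * (t - 2)) / (n * (n - 1) * (n - 2)) * n.factorial := by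
    field_simp
    field_simp at c2'
    linarith
  rw [d1, d2]
  ring

theorem const_stopping {n t : ℕ} (h1 : 1 ≤ t) (h2 : t ≤ n) :
    IsStopping (n := n) fun _ => t :=
  ⟨fun _ => ⟨h1, h2⟩, fun _ _ _ => rfl⟩

end Pool.Agent.K4H75.OS
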