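import Pool.Agent.K4H75.OS.Spec

/-!
# Optimal stopping for components on planar triangulations: piece REAL
-/

set_option autoImplicit false

namespace Pool.Agent.K4H75.OS

theorem real : StReal := by
  intro n hn
  set s : ℝ := Real.sqrt 3 with hs
  have hs2 : s ^ 2 = 3 := Real.sq_sqrt (by norm_num)
  have hs0 : 0 ≤ s := Real.sqrt_nonneg 3
  have hs1 : 17 / 10 < s := by
    rw [hs]
    exact Real.lt_sqrt_of_sq_lt (by norm_num)
  have hs3 : s < 18 / 10 := by
    rw [hs]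
    exact (Real.sqrt_lt' (by norm_num)).2 (by norm_num)
  have hN : (20 : ℝ) ≤ n := by exact_mod_cast hn
  set N : ℝ := (n : ℝ) with hNdef
  have hx : 0 ≤ (3 - s) / 6 * N := by
    have : 0 ≤ 3 - s := by linarith
    positivity
  set t : ℕ := ⌊(3 - s) / 6 * N⌋₊ with ht
  have h1 : (t : ℝ) ≤ (3 - s) / 6 * N := Nat.floor_le hx
  have h2 : (3 - s) / 6 * N < t + 1 := Nat.lt_floor_add_one _
  have hxl : 4 ≤ (3 - s) / 6 * N := by nlinarith
  have ht4 : 4 ≤ t := Nat.le_floor (by exact_mod_cast hxl)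
  have hT4 : (4 : ℝ) ≤ t := by exact_mod_cast ht4
  have htn : t ≤ n := by
    have h3 : (t : ℝ) ≤ (n : ℝ) := by
      have : (3 - s) / 6 * N ≤ N := by nlinarith
      exact h1.trans this
    exact Nat.cast_le.1 h3
  refine ⟨t, by omega, htn, ?_⟩
  set T : ℝ := (t : ℝ) with hTdef
  obtain ⟨d, hd⟩ : ∃ d, d = (3 - s) / 6 * N - T := ⟨_, rfl⟩
  have hd0 : 0 ≤ d := by linarith
  have hd1 : d < 1 := by linarith
  have hTd : T = (3 - s) / 6 * N - d := by linarith
  have hNpos : 0 < N := by linarith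
  have hN1 : 0 < N - 1 := by linarith
  have hN2 : 0 < N - 2 := by linarith
  -- the two fractions
  have e1 : (3 * N - 6) * (T * (T - 1)) / (N * (N - 1)) ≤ 3 * T ^ 2 / N := by
    rw [div_le_div_iff₀ (by positivity) hNpos]
    have h3 : (N - 2) * (T - 1) ≤ T * (N - 1) := by nlinarith
    have h4 : 0 ≤ 3 * T * N := by positivity
    nlinarith [mul_le_mul_of_nonneg_left h3 h4]
  have e2 : (2 * N - 4) * (T * (T - 1) * (T - 2)) / (N * (N - 1) * (N - 2)) =
      2 * (T * (T - 1) * (T - 2)) / (N * (N - 1)) := by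
    rw [div_eq_div_iff (by positivity) (by positivity)]
    ring
  have e3 : 2 * (T ^ 3 - 3 * T ^ 2) / N ^ 2 ≤ 2 * (T * (T - 1) * (T - 2)) / (N * (N - 1)) := by
    have h3 : 2 * (T ^ 3 - 3 * T ^ 2) / N ^ 2 ≤ 2 * (T ^ 3 - 3 * T ^ 2) / (N * (N - 1)) := by
      apply div_le_div_of_nonneg_left
      · have : 0 ≤ T ^ 2 * (T - 3) := mul_nonneg (sq_nonneg T) (by linarith)
        nlinarith
      · positivity
      · nlinarith
    refine h3.trans ?_
    apply div_le_div_of_nonneg_right _ (by positivity)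
    nlinarith
  rw [e2]
  have e4 : s / 18 * N - 1 ≤ T - 3 * T ^ 2 / N + 2 * (T ^ 3 - 3 * T ^ 2) / N ^ 2 := by
    have h5 : T - 3 * T ^ 2 / N + 2 * (T ^ 3 - 3 * T ^ 2) / N ^ 2 =
        (T * N ^ 2 - 3 * T ^ 2 * N + 2 * T ^ 3 - 6 * T ^ 2) / N ^ 2 := by
      field_simp
      ring
    rw [h5, le_div_iff₀ (by positivity)]
    have h6 : T * N ^ 2 - 3 * T ^ 2 * N + 2 * T ^ 3 =
        s / 18 * N ^ 3 - s * d ^ 2 * N - 2 * d ^ 3 := by
      rw [hTd]
      have hs3' : s ^ 3 = 3 * s := by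
        calc s ^ 3 = s ^ 2 * s := by ring
          _ = 3 * s := by rw [hs2]
      ring_nf
      rw [hs3', hs2]
      ring
    have h8 : T ≤ 22 / 100 * N := by
      have : (3 - s) / 6 ≤ 22 / 100 := by linarith
      have := mul_le_mul_of_nonneg_right this hNpos.le
      linarith
    have h9 : T ^ 2 ≤ (22 / 100 * N) ^ 2 := pow_le_pow_left₀ (by linarith) h8 2
    have h9' : T ^ 2 ≤ 484 / 10000 * N ^ 2 := by
      calc T ^ 2 ≤ (22 / 100 * N) ^ 2 := h9
        _ = 484 / 10000 * N ^ 2 := by ring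
    have hd2 : d ^ 2 ≤ 1 := pow_le_one₀ hd0 hd1.le
    have hd3 : d ^ 3 ≤ 1 := pow_le_one₀ hd0 hd1.le
    have hd2' : 0 ≤ d ^ 2 := sq_nonneg d
    have h10 : s * d ^ 2 * N ≤ 18 / 10 * N := by
      have : s * d ^ 2 ≤ 18 / 10 * 1 := mul_le_mul hs3.le hd2 hd2' (by norm_num)
      have := mul_le_mul_of_nonneg_right this hNpos.le
      linarith
    have h11 : (s / 18 * N - 1) * N ^ 2 = s / 18 * N ^ 3 - N ^ 2 := by ring
    have h12 : 20 * N ≤ N ^ 2 := by
      have := mul_le_mul_of_nonneg_right hN hNpos.le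
      linarith [sq N]
    rw [h11, h6]
    linarith
  linarith

end Pool.Agent.K4H75.OS
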