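import Mathlib

/-!
# Optimal stopping for components on planar triangulations (MP_195d30_co): definitions, pieces
-/

set_option autoImplicit false

namespace Pool.Agent.K4H75.OS

open Finset

/-- The edges of `G`, as two-element sets of vertices. -/
noncomputable def edges {n : ℕ} (G : SimpleGraph (Fin n)) : Finset (Finset (Fin n)) :=
  open Classical in
  (univ.powersetCard 2).filter fun e => ∀ a ∈ e, ∀ b ∈ e, a ≠ b → G.Adj a b

/-- `F` is the set of the facial triangles of a triangulation of the sphere with the graph `G`: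
the elements of `F` are triangles of `G`, each edge lies in exactly two of them, the triangles at
a vertex form one cycle (a nonempty set of triangles at `v` which is closed under passing over
the edges through `v` contains all of them), `G` is connected and `V - E + F = 2`. -/
structure IsSphere {n : ℕ} (G : SimpleGraph (Fin n)) (F : Finset (Finset (Fin n))) : Prop where
  card : ∀ f ∈ F, f.card = 3
  adj : ∀ f ∈ F, ∀ a ∈ f, ∀ b ∈ f, a ≠ b → G.Adj a b
  two : ∀ e ∈ edges G, (F.filter fun f => e ⊆ f).card = 2
  link : ∀ v, ∀ A ⊆ F.filter (fun f => v ∈ f), A.Nonempty →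
    (∀ f ∈ A, ∀ g ∈ F, v ∈ g → 2 ≤ (f ∩ g).card → g ∈ A) → A = F.filter (fun f => v ∈ f)
  connected : G.Connected
  euler : n + F.card = (edges G).card + 2

/-- The number of the connected components of the subgraph induced on `S`. -/
noncomputable def comps {n : ℕ} (G : SimpleGraph (Fin n)) (S : Finset (Fin n)) : ℕ :=
  Nat.card (G.induce (S : Set (Fin n))).ConnectedComponent

/-- The set of the first `t` vertices in the order `σ 0, σ 1, …`. -/
def active {n : ℕ} (σ : Equiv.Perm (Fin n)) (t : ℕ) : Finset (Fin n) :=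
  (univ.filter fun i : Fin n => (i : ℕ) < t).map σ.toEmbedding

/-- piece DUAL: a nonempty set of faces which meets every edge in an even number of faces
consists of all the faces. -/
def StDual : Prop := ∀ (n : ℕ) (G : SimpleGraph (Fin n)) (F : Finset (Finset (Fin n))),
  IsSphere G F → ∀ A ⊆ F, A.Nonempty →
    (∀ e ∈ edges G, (A.filter fun f => e ⊆ f).card ≠ 1) → A = F

/-- piece FAC: the numbers of the edges and of the faces. -/
def StFac : Prop := ∀ (n : ℕ) (G : SimpleGraph (Fin n)) (F : Finset (Finset (Fin n))),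
  IsSphere G F → (edges G).card + 6 = 3 * n ∧ F.card + 4 = 2 * n

/-- piece CNT: double counting of the sets of a family of `k`-sets in the first `t` vertices. -/
def StCnt : Prop := ∀ (n k t : ℕ) (𝓔 : Finset (Finset (Fin n))), t ≤ n → k ≤ n →
  (∀ e ∈ 𝓔, e.card = k) →
  (∑ σ : Equiv.Perm (Fin n), (𝓔.filter fun e => e ⊆ active σ t).card) * n.choose k =
    𝓔.card * n.factorial * t.choose k

/-- piece EUL: a graph and a set of triangles in it such that every nonempty subset of the
triangles has an edge which lies in exactly one of its triangles. -/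
def StEul : Prop := ∀ (n : ℕ) (G : SimpleGraph (Fin n)) (S : Finset (Fin n))
  (A : Finset (Finset (Fin n))),
  (∀ f ∈ A, f.card = 3 ∧ f ⊆ S ∧ ∀ a ∈ f, ∀ b ∈ f, a ≠ b → G.Adj a b) →
  (∀ B ⊆ A, B.Nonempty → ∃ e ∈ edges G, (B.filter fun f => e ⊆ f).card = 1) →
  S.card + A.card ≤ ((edges G).filter fun e => e ⊆ S).card + comps G S

/-- piece REAL: for `n ≥ 20` there is a time `t` such that the bound is at least
`√3 / 18 n - 1`. -/
def StReal : Prop := ∀ n : ℕ, 20 ≤ n → ∃ t : ℕ, 1 ≤ t ∧ t ≤ n ∧
  Real.sqrt 3 / 18 * n - 1 ≤ t - (3 * n - 6) * ((t : ℝ) * (t - 1)) / (n * (n - 1)) +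
    (2 * n - 4) * ((t : ℝ) * (t - 1) * (t - 2)) / (n * (n - 1) * (n - 2))

end Pool.Agent.K4H75.OS
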